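import Pool.Agent.Lib.MP_688fd0_co.TF.H20.Lnk

/-!
# Theorem F: module ADJF
-/

namespace Pool.Agent.Lib.MP_688fd0_co.TF.H20

open Pool.Agent.Lib.MP_688fd0_co.TE
open Pool.Agent.Lib.MP_688fd0_co.TF

universe u

theorem cc_ne {G : Type u} [Group G] [Fintype G] [DecidableEq G] {c : Ctx G} {τ : Bool} {p : ℕ}
    {x y : G} (h : c.cc τ p x y ≠ 0) : x⁻¹ * y ∈ Lt c.B c.C τ := by
  unfold Ctx.cc cF at h
  split at h
  · exact TE.H19.WM_ne h
  · exact TE.H19.B_sub_Lt (TE.H19.UM_ne h)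

theorem cx_ne {G : Type u} [Group G] [Fintype G] [DecidableEq G] {c : Ctx G} {τ par : Bool}
    {x y : G} {p : ℕ} {a b : G} (h : c.cx τ par x y p a b ≠ 0) : c.cc τ p a b ≠ 0 := by
  intro h0
  apply h
  unfold Ctx.cx
  by_cases hp : p = c.mid par
  · subst hp
    rw [cpl_eq, h0, zero_mul]
  · rw [cpl_ne _ _ _ hp, h0]

/-- Module ADJF. -/
theorem adjf : ADJF_S.{u} := by
  intro G _ _ _ c τ par x y z hz
  unfold Ctx.WL at hz
  have h1 : ind (z 0 = x ∧ z (Fin.last _) = y) ≠ 0 := by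
    intro h; apply hz; rw [h]; simp
  have h2 : z 0 = x ∧ z (Fin.last _) = y := by
    by_contra h; exact h1 (ind_not h)
  have h3 : ∏ i : Fin (c.len par), c.cx τ par x y (i + 1) (z i.castSucc) (z i.succ) ≠ 0 := by
    intro h; apply hz; rw [h]; simp
  have h4 : ∀ i : Fin (c.len par), c.cx τ par x y (i + 1) (z i.castSucc) (z i.succ) ≠ 0 :=
    fun i => (Finset.prod_ne_zero_iff.1 h3) i (Finset.mem_univ _)
  exact ⟨h2.1, h2.2, fun i => cc_ne (cx_ne (h4 i))⟩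

end Pool.Agent.Lib.MP_688fd0_co.TF.H20
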