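import Pool.Agent.Lib.MP_688fd0_co.TF.H20.Lnk

/-!
# Theorem F: modules CPLF (coupled links) and TELEF (telescoping)
-/

namespace Pool.Agent.Lib.MP_688fd0_co.TF.H20

open Pool.Agent.Lib.MP_688fd0_co.TE
open Pool.Agent.Lib.MP_688fd0_co.TF

universe u

theorem norm_sq_rw {G : Type*} [Fintype G] (v : EuclideanSpace ℝ G) : ‖v‖ ^ 2 = ∑ i, v i ^ 2 := by
  rw [EuclideanSpace.norm_sq_eq]
  simp

/-- Lower bound for the sum of the squares of the minimum. -/
theorem min_sum {G : Type*} [Fintype G] (F f : G → ℝ) (q : ℝ) (hq : 0 ≤ q)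
    (h1 : ∑ i, (F i - f i) ^ 2 ≤ q / 100) (h2 : ∑ i, f i ^ 2 = q) :
    (8 / 10 : ℝ) * q ≤ ∑ i, min (F i) (f i) ^ 2 := by
  set f' : EuclideanSpace ℝ G := WithLp.toLp 2 f with hf'
  set N : EuclideanSpace ℝ G := WithLp.toLp 2 (fun i => min (F i) (f i)) with hN
  have e1 : ‖f'‖ ^ 2 = q := by rw [norm_sq_rw]; exact h2
  have e2 : ‖f' - N‖ ^ 2 ≤ q / 100 := by
    rw [norm_sq_rw]
    refine le_trans (Finset.sum_le_sum fun i _ => ?_) h1
    simp only [hf', hN, PiLp.sub_apply]
    rcases le_total (F i) (f i) with h | h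
    · rw [min_eq_left h]
      nlinarith
    · rw [min_eq_right h]
      nlinarith [sq_nonneg (F i - f i)]
  have e3 : ‖N‖ ^ 2 = ∑ i, min (F i) (f i) ^ 2 := norm_sq_rw _
  rw [← e3]
  have hs : 0 ≤ Real.sqrt q := Real.sqrt_nonneg _
  have hss : Real.sqrt q ^ 2 = q := Real.sq_sqrt hq
  have e4 : ‖f'‖ = Real.sqrt q := by rw [← e1, Real.sqrt_sq (norm_nonneg _)]
  have e5 : ‖f' - N‖ ≤ Real.sqrt q / 10 := by
    refine le_of_sq_le_sq ?_ (by positivity)
    rw [div_pow, hss]
    norm_num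
    linarith
  have e6 : ‖f'‖ ≤ ‖f' - N‖ + ‖N‖ := by
    have := norm_add_le (f' - N) N
    rwa [sub_add_cancel] at this
  have e7 : 9 / 10 * Real.sqrt q ≤ ‖N‖ := by
    rw [e4] at e6
    linarith
  have e8 : (9 / 10 * Real.sqrt q) ^ 2 ≤ ‖N‖ ^ 2 := pow_le_pow_left₀ (by positivity) e7 2
  rw [mul_pow, hss] at e8
  norm_num at e8
  linarith

section main

variable {G : Type u} [Group G] [Fintype G] [DecidableEq G] (c : Ctx G) (τ par : Bool)

theorem cc_nn (p : ℕ) (a b : G) : 0 ≤ c.cc τ p a b := by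
  have hU : ∀ S : Finset G, 0 ≤ UM S a b := fun S =>
    div_nonneg (ind_nonneg _) (Nat.cast_nonneg _)
  unfold Ctx.cc cF
  split
  · unfold WM
    split
    · simp only [Matrix.smul_apply, Matrix.add_apply, smul_eq_mul]
      have := hU c.B
      have := hU c.C
      positivity
    · exact hU c.B
  · exact hU c.B

theorem mid_pos (hk : 1 ≤ c.k) : 1 ≤ c.mid par := by
  unfold Ctx.mid; split <;> omega

theorem mid_le : c.mid par ≤ c.len par := by
  unfold Ctx.mid Ctx.len; split <;> omega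

theorem mid_ha : c.mid par = 3 * c.ha par := by
  unfold Ctx.mid Ctx.ha; split <;> omega

theorem len_sub : c.len par - c.mid par = 3 * c.k := by
  unfold Ctx.mid Ctx.len; split <;> omega

theorem len_mod : c.len par % 3 = 0 := by
  unfold Ctx.len; split <;> omega

/-- Consequences of KERF used here. -/
structure KB : Prop where
  nn : ∀ i n x y, 0 ≤ c.K τ i n x y
  add : ∀ i m n, c.K τ i (m + n) = c.K τ i m * c.K τ (i + m) n
  per : ∀ i s n, c.K τ (i + 3 * s) n = c.K τ i n
  tr : ∀ i i' n, (i + i' + n) % 3 = 0 → ∀ x y, c.K τ i n x y = c.K τ i' n y x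
  pw : ∀ a, c.K τ 0 (3 * a) = SM c.B c.C τ ^ a
  gs : ∀ i n x y, c.K τ i n x y ≤ c.gs τ i n
  inv : ∀ i n, Inv (c.K τ i n)

theorem kb (h : KERF_S.{u}) : KB c τ := by
  obtain ⟨h1, h2, h3, h4, h5, h6, -⟩ := h G c τ
  refine ⟨fun i n x y => (h1 i n).1.nn x y, h2, ?_, ?_, h5, h6, fun i n => (h1 i n).2⟩
  · intro i s n
    induction s with
    | zero => rfl
    | succ s ih => rw [show i + 3 * (s + 1) = i + 3 * s + 3 by ring, h3, ih]
  · intro i i' n hii x y
    rw [← h4 i i' n hii, Matrix.transpose_apply]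

variable {c τ}

/-- The return of the first half. -/
theorem ret1 (K : KB c τ) (s j : ℕ) (hj : j ≤ 3 * s) (x v : G) :
    ∑ u, c.K τ j (3 * s - j) v u * c.K τ 0 (3 * s) x u = c.K τ j (6 * s - j) v x := by
  rw [show 6 * s - j = (3 * s - j) + 3 * s by omega, K.add,
    show j + (3 * s - j) = 3 * s by omega, Matrix.mul_apply]
  refine Finset.sum_congr rfl fun u _ => ?_
  rw [K.tr 0 (3 * s) (3 * s) (by omega) x u]

/-- The return of the second half: `m = 3 s`, `n - m = 3 t`, `j ≥ m`. -/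
theorem ret2 (K : KB c τ) (s t j : ℕ) (hj : 3 * s ≤ j) (hj' : j ≤ 3 * s + 3 * t) (y v : G) :
    ∑ u, c.K τ (3 * s) (3 * t) u y * c.K τ (3 * s) (j - 3 * s) u v =
      c.K τ (3 * s + 3 * t - j) (6 * t - (3 * s + 3 * t - j)) v y := by
  rw [show 6 * t - (3 * s + 3 * t - j) = (j - 3 * s) + 3 * t by omega, K.add,
    show 3 * s + 3 * t - j + (j - 3 * s) = 3 * t by omega, Matrix.mul_apply]
  refine Finset.sum_congr rfl fun u _ => ?_
  rw [K.tr (3 * s) (3 * s + 3 * t - j) (j - 3 * s) (by omega) u v]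
  have e1 : c.K τ (3 * s) (3 * t) = c.K τ (3 * t) (3 * t) := by
    have h1 := K.per 0 s (3 * t)
    have h2 := K.per 0 t (3 * t)
    rw [Nat.zero_add] at h1 h2
    rw [h1, h2]
  rw [e1]
  ring

theorem FF_eq (hk : 1 ≤ c.k) (x y : G) :
    c.FF τ par x y = ∑ v, min (c.K τ 0 (c.mid par) x v)
      (c.K τ (c.mid par) (c.len par - c.mid par) v y) ^ 2 := by
  exact mass_eq (c.cc τ) (c.mid par) (c.len par) (cc_nn c τ) (mid_pos c par hk) (mid_le c par) x y

theorem FF_low (K : KB c τ) (hQ : QQF_S.{u}) (x y : G) (h : c.adm τ par 100 x y)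
    (hk : 1 ≤ c.k) : (8 / 10 : ℝ) * c.q τ ≤ c.FF τ par x y := by
  obtain ⟨-, q2, -⟩ := hQ G c τ
  rw [FF_eq par hk]
  have hq : 0 < c.q τ := q2 c.k
  have e2 : ∀ v, c.K τ (c.mid par) (c.len par - c.mid par) v y = (SM c.B c.C τ ^ c.k) y v := by
    intro v
    rw [len_sub, mid_ha, K.tr (3 * c.ha par) 0 (3 * c.k) (by omega), K.pw]
  have e1 : ∀ v, c.K τ 0 (c.mid par) x v = (SM c.B c.C τ ^ c.ha par) x v := by
    intro v
    rw [mid_ha, K.pw]
  simp only [e1, e2]
  refine min_sum _ _ _ hq.le ?_ ?_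
  · unfold Ctx.adm at h
    unfold Ctx.ha
    cases par
    · simp only [Bool.false_eq_true, if_false] at h ⊢
      exact c.hcE τ x y h
    · simp only [if_true] at h ⊢
      exact c.hcO τ x y h
  · have e3 : ∀ v, (SM c.B c.C τ ^ c.k) y v ^ 2 =
        c.K τ 0 (3 * c.k) y v * c.K τ (3 * c.k) (3 * c.k) v y := by
      intro v
      rw [K.tr (3 * c.k) 0 (3 * c.k) (by omega), K.pw]
      ring
    simp only [e3]
    have e4 := K.add 0 (3 * c.k) (3 * c.k)
    have e5 : (c.K τ 0 (3 * c.k + 3 * c.k)) y y = c.q τ := by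
      rw [show 3 * c.k + 3 * c.k = 3 * (2 * c.k) by ring]
      have h6 := K.inv 0 (3 * (2 * c.k)) y 1 1
      rw [mul_one, K.pw] at h6
      rw [K.pw, h6]
      rfl
    rw [e4, Matrix.mul_apply, Nat.zero_add] at e5
    exact e5

/-- Two windows of a closed walk. -/
theorem two_win (K : KB c τ) (hR : MRG_S.{u}) (hq : 0 < c.b) (a j : ℕ) (ha : c.k ≤ a)
    (h1 : 1 ≤ j) (h2 : j < 6 * a) (x v : G) :
    c.K τ 0 j x v * c.K τ j (6 * a - j) v x ≤ 2 * c.q τ / c.b ^ (1 / 2 : ℝ) := by
  have hM := (hR G c τ [(0, j), (j, 6 * a - j)] 1 0 rfl le_rfl ?_ (by norm_num)).1 ?_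
  · simp only [List.map_cons, List.map_nil, List.prod_cons, List.prod_nil, mul_one] at hM
    refine le_trans ?_ (hM.trans (le_of_eq ?_))
    · exact mul_le_mul (K.gs _ _ _ _) (K.gs _ _ _ _) (K.nn _ _ _ _)
        ((K.nn 0 j x v).trans (K.gs _ _ _ _))
    · norm_num
  · intro l hl hs
    rcases l with _ | ⟨p, l⟩
    · simp
    · exfalso
      have hp : p ∈ [(0, j), (j, 6 * a - j)] := hl.subset (by simp)
      have hp' := hs p (by simp)
      simp only [List.mem_cons, List.not_mem_nil, or_false] at hp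
      unfold spw at hp'
      rcases hp with h | h
      · rw [h] at hp'
        rcases hp' with h' | h'
        · simp only at h'; omega
        · simp only at h'; omega
      · rw [h] at hp'
        rcases hp' with h' | h'
        · simp only at h'; omega
        · simp only at h'
          omega
  · simp only [List.map_cons, List.map_nil, List.sum_cons, List.sum_nil]
    omega

end main

/-- Module CPLF. -/
theorem cplf (hK : KERF_S.{u}) (hQ : QQF_S.{u}) (hR : MRG_S.{u}) : CPLF_S.{u} := by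
  intro G _ _ _ c τ par x y hadm
  have K := kb c τ hK
  have hk : 1 ≤ c.k := by
    have := c.hodd
    rcases Nat.eq_zero_or_pos c.k with h | h
    · rw [h] at this; exact absurd this (by decide)
    · exact h
  have hb : 0 < c.b := by
    unfold Ctx.b
    exact_mod_cast c.hB.ne.card_pos
  have hF := FF_low par K hQ x y hadm hk
  obtain ⟨-, q2, -, q4, -⟩ := hQ G c τ
  have hq : 0 < c.q τ := q2 c.k
  have hF0 : 0 < c.FF τ par x y := by linarith
  have hm := mid_pos c par hk
  have hmn := mid_le c par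
  have hms := mid_ha c par
  have hls := len_sub c par
  have hl3 := len_mod c par
  have hmass : Kn (c.cx τ par x y) 0 (c.len par) x y = c.FF τ par x y := rfl
  have hcx : c.cx τ par x y =
      cpl (c.cc τ) (c.mid par) (rhoW (c.cc τ) (c.mid par) (c.len par) x y) := rfl
  have hcc := cc_nn c τ
  have hcx0 : ∀ p a b, 0 ≤ c.cx τ par x y p a b := by
    rw [hcx]
    exact cpl_nn (c.cc τ) (c.mid par) (c.len par) hcc x y
  have hqa : c.qq τ (c.ha par) ≤ c.q τ := by
    refine q4 _ _ ?_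
    unfold Ctx.ha; split <;> omega
  have hqa0 : 0 < c.qq τ (c.ha par) := q2 _
  have hKdef : ∀ i n, Kn (c.cc τ) i n = c.K τ i n := fun _ _ => rfl
  -- quotients
  have quo : ∀ (A qa : ℝ), 0 ≤ A → 0 < qa → qa ≤ c.q τ →
      A / c.FF τ par x y ≤ 5 / 4 * (A / qa) := by
    intro A qa hA h0 h1
    rw [div_le_iff₀ hF0]
    have h3 : 5 / 4 * (A / qa) * ((8 / 10 : ℝ) * c.q τ) ≤ 5 / 4 * (A / qa) * c.FF τ par x y :=
      mul_le_mul_of_nonneg_left hF (by positivity)
    have h4 : A / qa * qa ≤ A / qa * c.q τ := mul_le_mul_of_nonneg_left h1 (by positivity)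
    rw [div_mul_cancel₀ _ h0.ne'] at h4
    linarith
  -- bounds of the vertex weights
  have w1 : ∀ j v, j ≤ c.mid par →
      Kn (c.cx τ par x y) 0 j x v * Kn (c.cx τ par x y) j (c.len par - j) v y ≤
        c.K τ 0 j x v * c.K τ j (6 * c.ha par - j) v x := by
    intro j v hj
    rcases Nat.lt_or_ge j (c.mid par) with h | h
    · rw [hcx, fac0_before _ _ _ _ _ _ h]
      refine mul_le_mul_of_nonneg_left ?_ (kn_nn _ hcc _ _ _ _)
      refine (fac2_before _ _ _ hcc hmn x y j h v).trans (le_of_eq ?_)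
      have e := ret1 K (c.ha par) j (by omega) x v
      rw [← hms] at e
      exact e
    · have hj' : j = c.mid par := by omega
      subst hj'
      rw [hcx, kn_at _ _ _ 0 (c.mid par) hm (Nat.zero_add _), kn_after _ _ _ _ _ le_rfl, mul_assoc]
      refine mul_le_mul_of_nonneg_left ?_ (kn_nn _ hcc _ _ _ _)
      refine (rho_facts (kn_nn _ hcc _ _ _ _) (kn_nn _ hcc _ _ _ _)).2.2.2.1.trans (le_of_eq ?_)
      rw [hKdef, hms, show 6 * c.ha par - 3 * c.ha par = 3 * c.ha par by omega,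
        K.tr 0 (3 * c.ha par) (3 * c.ha par) (by omega)]
  have w2 : ∀ j v, c.mid par ≤ j → j ≤ c.len par →
      Kn (c.cx τ par x y) 0 j x v * Kn (c.cx τ par x y) j (c.len par - j) v y ≤
        c.K τ 0 (c.len par - j) y v *
          c.K τ (c.len par - j) (6 * c.k - (c.len par - j)) v y := by
    intro j v hj hj'
    rw [hcx, kn_after _ _ _ _ _ hj, mul_comm]
    refine mul_le_mul ?_ ?_ (kn_nn _ (by rw [← hcx]; exact hcx0) _ _ _ _) (K.nn _ _ _ _)
    · rw [hKdef, K.tr j 0 (c.len par - j) (by omega)]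
    · refine (fac0_after _ _ _ hcc hm x y j hj v).trans (le_of_eq ?_)
      have e := ret2 K (c.ha par) c.k j (by omega) (by omega) y v
      rw [← hms, ← hls, show c.mid par + (c.len par - c.mid par) = c.len par by omega] at e
      rw [show 6 * c.k = 2 * (c.len par - c.mid par) by omega]
      rw [hls] at e ⊢
      rw [show 2 * (3 * c.k) = 6 * c.k by ring]
      exact e
  refine ⟨hF, FF_eq par hk x y, ?_, ?_, ?_, ?_, ?_, ?_, ?_⟩
  · intro j v v' _
    unfold Ctx.U
    exact div_nonneg (mul_nonneg (mul_nonneg (kn_nn _ hcx0 _ _ _ _) (hcx0 _ _ _))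
      (kn_nn _ hcx0 _ _ _ _)) hF0.le
  · intro j hj
    unfold Ctx.U
    simp only [← Finset.sum_div]
    rw [div_eq_one_iff_eq hF0.ne', ← hmass]
    exact sum_steps (c.len par) (c.cx τ par x y) x y j hj
  · intro j v v' hj
    unfold Ctx.U Ctx.kp
    have e1 : Kn (c.cx τ par x y) 0 j x v * c.cx τ par x y (j + 1) v v' *
        Kn (c.cx τ par x y) (j + 1) (c.len par - 1 - j) v' y ≤
        c.K τ 0 j x v * c.K τ (j + 1) (6 * c.ha par - (j + 1)) v' x * c.cc τ (j + 1) v v' := by
      rw [mul_assoc, mul_assoc, hcx, fac0_before _ _ _ _ _ _ hj]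
      refine mul_le_mul_of_nonneg_left ?_ (kn_nn _ hcc _ _ _ _)
      refine (fac1_before _ _ _ hcc hmn x y j hj v v').trans (le_of_eq ?_)
      have e := ret1 K (c.ha par) (j + 1) (by omega) x v'
      rw [← hms] at e
      rw [mul_comm, show c.mid par - 1 - j = c.mid par - (j + 1) by omega]
      rw [← e]
      rfl
    refine (div_le_div_of_nonneg_right e1 hF0.le).trans ?_
    refine (quo _ _ (mul_nonneg (mul_nonneg (K.nn _ _ _ _) (K.nn _ _ _ _)) (hcc _ _ _)) hqa0
      hqa).trans (le_of_eq ?_)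
    rw [mul_inv_cancel_left]
    ring
  · intro j v v' hj hj'
    unfold Ctx.U Ctx.kp
    have e1 : Kn (c.cx τ par x y) 0 j x v * c.cx τ par x y (j + 1) v v' *
        Kn (c.cx τ par x y) (j + 1) (c.len par - 1 - j) v' y ≤
        c.K τ 0 (c.len par - 1 - j) y v' * c.K τ (c.len par - j) (6 * c.k - (c.len par - j)) v y *
          c.cc τ (j + 1) v v' := by
      rw [hcx, kn_after _ _ _ _ _ (by omega : c.mid par ≤ j + 1), cpl_ne _ _ _ (by omega)]
      have e2 : Kn (cpl (c.cc τ) (c.mid par) (rhoW (c.cc τ) (c.mid par) (c.len par) x y)) 0 j x v ≤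
          c.K τ (c.len par - j) (6 * c.k - (c.len par - j)) v y := by
        refine (fac0_after _ _ _ hcc hm x y j hj v).trans (le_of_eq ?_)
        have e := ret2 K (c.ha par) c.k j (by omega) (by omega) y v
        rw [← hms, show c.mid par + 3 * c.k = c.len par by omega] at e
        rw [hls]
        exact e
      have e3 : Kn (c.cc τ) (j + 1) (c.len par - 1 - j) v' y = c.K τ 0 (c.len par - 1 - j) y v' := by
        rw [hKdef, K.tr (j + 1) 0 (c.len par - 1 - j) (by omega)]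
      rw [e3]
      have h5 := mul_le_mul_of_nonneg_right e2
        (mul_nonneg (hcc (j + 1) v v') (K.nn 0 (c.len par - 1 - j) y v'))
      calc _ = _ * (c.cc τ (j + 1) v v' * c.K τ 0 (c.len par - 1 - j) y v') := by ring
        _ ≤ _ := h5
        _ = _ := by ring
    refine (div_le_div_of_nonneg_right e1 hF0.le).trans ?_
    refine (quo _ _ (mul_nonneg (mul_nonneg (K.nn _ _ _ _) (K.nn _ _ _ _)) (hcc _ _ _)) hq
      le_rfl).trans (le_of_eq ?_)
    rw [mul_inv_cancel_left]
    unfold Ctx.q Ctx.qq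
    ring
  · intro j v hj
    unfold Ctx.U1 Ctx.kp
    refine (div_le_div_of_nonneg_right (w1 j v hj) hF0.le).trans ?_
    rw [mul_one]
    exact quo _ _ (mul_nonneg (K.nn _ _ _ _) (K.nn _ _ _ _)) hqa0 hqa
  · intro j v hj hj'
    unfold Ctx.U1 Ctx.kp
    refine (div_le_div_of_nonneg_right (w2 j v hj hj') hF0.le).trans ?_
    rw [mul_one]
    exact quo _ _ (mul_nonneg (K.nn _ _ _ _) (K.nn _ _ _ _)) hq le_rfl
  · intro j v hj hj'
    unfold Ctx.U1
    have hbs : 0 < c.b ^ (1 / 2 : ℝ) := Real.rpow_pos_of_pos hb _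
    have e1 : Kn (c.cx τ par x y) 0 j x v * Kn (c.cx τ par x y) j (c.len par - j) v y ≤
        2 * c.q τ / c.b ^ (1 / 2 : ℝ) := by
      rcases Nat.lt_or_ge (c.mid par) j with h | h
      · refine (w2 j v h.le hj'.le).trans ?_
        exact two_win K hR hb c.k _ le_rfl (by omega) (by omega) y v
      · refine (w1 j v h).trans ?_
        refine two_win K hR hb (c.ha par) j ?_ (by omega) (by omega) x v
        unfold Ctx.ha; split <;> omega
    rw [div_le_iff₀ hF0]
    refine e1.trans ?_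
    have e2 : 4 / c.b ^ (1 / 2 : ℝ) * ((8 / 10 : ℝ) * c.q τ) ≤
        4 / c.b ^ (1 / 2 : ℝ) * c.FF τ par x y := mul_le_mul_of_nonneg_left hF (by positivity)
    refine le_trans ?_ e2
    rw [div_mul_eq_mul_div]
    refine div_le_div_of_nonneg_right ?_ hbs.le
    linarith

end Pool.Agent.Lib.MP_688fd0_co.TF.H20
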