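import Pool.Agent.Lib.MP_688fd0_co.TF.H20.Cplf

/-!
# Theorem F: module TELEF (telescoping and invariance for the coupled link law)
-/

namespace Pool.Agent.Lib.MP_688fd0_co.TF.H20

open Pool.Agent.Lib.MP_688fd0_co.TE
open Pool.Agent.Lib.MP_688fd0_co.TF

universe u

/-- Translation of products of kernels. -/
theorem kn_shift {G : Type u} [Group G] [Fintype G] [DecidableEq G]
    (c c' : ℕ → Matrix G G ℝ) (g : G) (h : ∀ p a b, c' p (g * a) (g * b) = c p a b) (i n : ℕ)
    (a b : G) : Kn c' i n (g * a) (g * b) = Kn c i n a b := by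
  induction n generalizing b with
  | zero =>
    simp only [Kn, Matrix.one_apply, mul_right_inj]
  | succ n ih =>
    simp only [Kn, Matrix.mul_apply]
    rw [← Equiv.sum_comp (Equiv.mulLeft g)]
    refine Finset.sum_congr rfl fun t _ => ?_
    simp only [Equiv.coe_mulLeft]
    rw [ih, h]

/-- Module TELEF. -/
theorem telef (hK : KERF_S.{u}) (hC : CPLF_S.{u}) (hQ : QQF_S.{u}) : TELEF_S.{u} := by
  intro G _ _ _ c τ par x y hadm
  obtain ⟨hF, -⟩ := hC G c τ par x y hadm
  obtain ⟨-, q2, -⟩ := hQ G c τ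
  have K := kb c τ hK
  obtain ⟨-, -, -, -, -, -, -, -, -, -, hccI, -⟩ := hK G c τ
  have hq : 0 < c.q τ := q2 c.k
  have hF0 : 0 < c.FF τ par x y := by linarith
  refine ⟨?_, ?_, ?_, ?_, ?_⟩
  · intro F
    exact TE.H19.tele G (c.cx τ par x y) (c.len par) x y F hF0.ne'
  · intro g j v v'
    have h1 : ∀ p a b, c.cx τ par (g * x) (g * y) p (g * a) (g * b) = c.cx τ par x y p a b := by
      intro p a b
      unfold Ctx.cx
      by_cases hp : p = c.mid par
      · subst hp
        rw [cpl_eq, cpl_eq]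
        unfold Ctx.rh
        rw [(hccI (c.mid par)).2 g a b, K.inv 0 (c.mid par) g x b,
          K.inv (c.mid par) (c.len par - c.mid par) g b y]
      · rw [cpl_ne _ _ _ hp, cpl_ne _ _ _ hp]
        exact (hccI p).2 g a b
    unfold Ctx.U Ctx.FF
    rw [kn_shift _ _ g h1, kn_shift _ _ g h1, kn_shift _ _ g h1, h1]
  · intro j v v' _ h h0
    apply h
    unfold Ctx.U
    have : c.cx τ par x y (j + 1) v v' = 0 := by
      unfold Ctx.cx
      by_cases hp : j + 1 = c.mid par
      · rw [hp, cpl_eq, ← hp, h0, zero_mul]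
      · rw [cpl_ne _ _ _ hp, h0]
    rw [this]
    ring
  · intro v v' h
    by_contra hne
    apply h
    unfold Ctx.U
    have : Kn (c.cx τ par x y) 0 0 x v = 0 := by
      simp only [Kn]
      exact Matrix.one_apply_ne (Ne.symm hne)
    rw [this]
    ring
  · intro j v v' hj h
    by_contra hne
    apply h
    unfold Ctx.U
    have : Kn (c.cx τ par x y) (j + 1) (c.len par - 1 - j) v' y = 0 := by
      rw [show c.len par - 1 - j = 0 by omega]
      simp only [Kn]
      exact Matrix.one_apply_ne hne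
    rw [this]
    ring

end Pool.Agent.Lib.MP_688fd0_co.TF.H20
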