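import Pool.Agent.Lib.MP_688fd0_co.TF.H20.Trf2

/-!
# Theorem F: module TRF
-/

namespace Pool.Agent.Lib.MP_688fd0_co.TF.H20

open Pool.Agent.Lib.MP_688fd0_co.TE
open Pool.Agent.Lib.MP_688fd0_co.TE.H19
open Pool.Agent.Lib.MP_688fd0_co.TF

universe u v

section

variable {G : Type u} [Group G] [Fintype G] [DecidableEq G]

theorem gs_nn (hQ : QQF_S.{u}) (c : Ctx G) (τ : Bool) (i n : ℕ) : 0 ≤ c.gs τ i n := by
  unfold Ctx.gs
  have h := (hQ G c τ).2.1
  have hb : 0 ≤ c.b := Nat.cast_nonneg _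
  split_ifs
  · exact (h _).le
  · exact zero_le_one
  · positivity

theorem g2_nn (hQ : QQF_S.{u}) (c : Ctx G) (τ : Bool) (i n : ℕ) : 0 ≤ c.g2 τ i n := by
  unfold Ctx.g2
  have h := (hQ G c τ).2.1
  have hb : 0 ≤ c.b := Nat.cast_nonneg _
  split_ifs
  · exact (h _).le
  · exact zero_le_one
  · positivity

/-- Positions of the windows. -/
def pos (d : ℕ) (ws : List (ℕ × ℕ)) : List (ℕ × ℕ) := ws.map (fun w => (d * w.1, d * w.2 + 1))

theorem pos_cnt (d : ℕ) (hd : 1 ≤ d) (τ : Bool) (ws : List (ℕ × ℕ)) (l : List (ℕ × ℕ))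
    (hl : l.Sublist (pos d ws)) (hs : ∀ p ∈ l, spw τ p) : l.length ≤ cnt d ws := by
  have h1 : l.countP (fun p => decide (p.2 = 1 ∧ p.1 % 3 = 1)) = l.length ∨
      ∃ p ∈ l, p.2 = 0 := by
    by_cases h0 : ∃ p ∈ l, p.2 = 0
    · exact Or.inr h0
    · left
      rw [List.countP_eq_length]
      intro p hp
      rcases hs p hp with h | ⟨h, h', _⟩
      · exact absurd ⟨p, hp, h⟩ h0
      · simp [h, h']
  rcases h1 with h1 | ⟨p, hp, h0⟩
  · rw [← h1]
    refine le_trans (hl.countP_le) ?_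
    unfold pos cnt
    rw [List.countP_map]
    refine List.countP_mono_left fun w _ hw => ?_
    simp only [Function.comp, decide_eq_true_eq] at hw ⊢
    refine ⟨?_, hw.2⟩
    have : d * w.2 = 0 := by omega
    rcases Nat.mul_eq_zero.1 this with h | h
    · omega
    · exact h
  · have := hl.subset hp
    unfold pos at this
    rw [List.mem_map] at this
    obtain ⟨w, _, rfl⟩ := this
    simp at h0

/-- Products of windows of compositions. -/
theorem prod_le (hM : MRG_S.{u}) (hN : NUMF_S.{u}) (c : Ctx G) (τ : Bool)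
    (d n j0 i e : ℕ) (hd : d = 1 ∨ d = 2) (ws : List (ℕ × ℕ)) (R : ℕ) (hw : CT n j0 i ws)
    (hl : ws.length = R + 1) (hR : 1 ≤ R) (he : e ≤ 1)
    (hc : (τ = false ∧ e = 0) ∨
      ∀ s len, 2 * s + (if 0 < i ∨ (d * j0) % 3 ≠ 1 then 1 else 0) +
      (if (d * (j0 + i + n)) % 3 ≠ 1 then 1 else 0) ≤ len + 1 → 2 * s + 1 ≤ len + e) :
    (6 * c.k ≤ d * (i + n) + 41 →
      (ws.map (fun w => c.gs τ (d * w.1) (d * w.2 + 1))).prod ≤
        2 * c.q τ * c.b1 ^ e * (1 / c.b1) ^ R) ∧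
    (3 * c.k ≤ d * (i + n) + 21 →
      (ws.map (fun w => c.g2 τ (d * w.1) (d * w.2 + 1))).prod ≤
        2 * c.q τ * c.b1 ^ e * (1 / c.b1) ^ R) := by
  obtain ⟨-, -, -, -, -, hq, hb, -, -, hb1, -, hb4, -⟩ := hN G c
  have h1 := CT_sum d n j0 i ws hw
  have h2 := CT_cnt d hd n j0 i ws hw
  have hd1 : 1 ≤ d := by omega
  obtain ⟨cn, hcn, hcnt⟩ : ∃ cn : ℕ, (∀ l : List (ℕ × ℕ), l.Sublist (pos d ws) →
      (∀ p ∈ l, spw τ p) → l.length ≤ cn) ∧ 2 * cn ≤ R + e := by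
    rcases hc with ⟨hτ, rfl⟩ | hc
    · refine ⟨0, fun l hl hs => ?_, by omega⟩
      by_contra hh
      obtain ⟨p, hp⟩ := List.exists_mem_of_length_pos (not_le.1 hh)
      have h5 := hl.subset hp
      unfold pos at h5
      rw [List.mem_map] at h5
      obtain ⟨w, _, rfl⟩ := h5
      rcases hs _ hp with h6 | h6
      · simp at h6
      · rw [hτ] at h6
        exact absurd h6.2.2 (by simp)
    · have h3 := hc _ _ h2
      exact ⟨cnt d ws, fun l hl hs => pos_cnt d hd1 τ ws l hl hs, by omega⟩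
  have h4 := hM G c τ (pos d ws) R cn (by unfold pos; rw [List.length_map, hl]) hR hcn (by omega)
  have h5 : ((pos d ws).map Prod.snd).sum = (ws.map (fun p => d * p.2 + 1)).sum := by
    unfold pos
    rw [List.map_map]
    rfl
  have h6 : (ws.map (fun p => d * p.2 + 1)).sum + (d - 1) * R = d * (i + n) + 1 := by
    rw [hl] at h1
    rcases hd with rfl | rfl <;> omega
  have h7 : 2 * c.q τ / c.b ^ (((R : ℝ) - (cn : ℕ)) / 2) ≤
      2 * c.q τ * c.b1 ^ e * (1 / c.b1) ^ R := by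
    have hbe : c.b = c.b1 ^ (4 : ℝ) := by
      rw [← hb4]
      norm_cast
    have hb1' : 1 ≤ c.b1 := by
      by_contra hh
      have h8 : c.b1 ^ 4 < 1 := pow_lt_one₀ hb1.le (not_le.1 hh) (by norm_num)
      rw [hb4] at h8
      have h9 : (1 : ℝ) ≤ c.b := by
        unfold Ctx.b
        have : (0 : ℝ) < (c.B.card : ℝ) := hb
        exact_mod_cast (Nat.cast_pos.1 this)
      linarith
    have h10 : c.b ^ (((R : ℝ) - (cn : ℕ)) / 2) = c.b1 ^ (2 * ((R : ℝ) - (cn : ℕ))) := by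
      rw [hbe, ← Real.rpow_mul hb1.le]
      congr 1
      ring
    have h11 : c.b1 ^ ((R : ℝ) - e) ≤ c.b1 ^ (2 * ((R : ℝ) - (cn : ℕ))) := by
      refine Real.rpow_le_rpow_of_exponent_le hb1' ?_
      have : (2 * (cn : ℕ) : ℝ) ≤ R + e := by exact_mod_cast hcnt
      linarith
    have h12 : c.b1 ^ ((R : ℝ) - e) = c.b1 ^ R / c.b1 ^ e := by
      rw [Real.rpow_sub hb1, Real.rpow_natCast, Real.rpow_natCast]
    rw [h10]
    have h13 : 0 < c.b1 ^ R := pow_pos hb1 _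
    have h14 : 0 < c.b1 ^ e := pow_pos hb1 _
    calc 2 * c.q τ / c.b1 ^ (2 * ((R : ℝ) - (cn : ℕ))) ≤
        2 * c.q τ / c.b1 ^ ((R : ℝ) - e) := by
          refine div_le_div_of_nonneg_left ?_ (Real.rpow_pos_of_pos hb1 _) h11
          have := hq τ
          positivity
      _ = 2 * c.q τ * c.b1 ^ e * (1 / c.b1) ^ R := by
          rw [h12, one_div, inv_pow]
          field_simp
  have e1 : (pos d ws).map (fun p => c.gs τ p.1 p.2) =
      ws.map (fun w => c.gs τ (d * w.1) (d * w.2 + 1)) := by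
    unfold pos
    rw [List.map_map]
    rfl
  have e2 : (pos d ws).map (fun p => c.g2 τ p.1 p.2) =
      ws.map (fun w => c.g2 τ (d * w.1) (d * w.2 + 1)) := by
    unfold pos
    rw [List.map_map]
    rfl
  rw [e1, e2] at h4
  refine ⟨fun h => le_trans (h4.1 ?_) h7, fun h => le_trans (h4.2 ?_) h7⟩
  · rw [h5]
    rcases hd with rfl | rfl <;> omega
  · rw [h5]
    rcases hd with rfl | rfl <;> omega

/-- Numerical facts for the instances. -/
theorem num_facts (hN : NUMF_S.{u}) (c : Ctx G) (n : ℕ) (H : ℝ) (hn : n ≤ 6 * c.k + 2)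
    (hH1 : 1 ≤ H) (hH : H ≤ 2 * c.X ^ 3000) :
    (n : ℝ) * (H * (1 / c.b1)) ≤ 1 ∧ 4 * ((n : ℝ) * (H * (1 / c.b1))) ≤ 1 / c.b1 ^ (1 / 2 : ℝ) ∧
      2 + 4 * (n : ℝ) * H ≤ c.X * H ∧ 4 ≤ c.X * H := by
  obtain ⟨hX, hkX, -, hk, -, -, -, -, -, hb1, hXb, -⟩ := hN G c
  have hX0 : (0 : ℝ) < c.X := by linarith
  have hX1 : (1 : ℝ) ≤ c.X := by linarith
  have hk1 : (100 : ℝ) ≤ c.k := by exact_mod_cast hk
  have hkX' : (10 ^ 6 * c.k : ℝ) ≤ c.X := by
    refine le_trans ?_ hkX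
    exact le_self_pow₀ (by nlinarith) (by norm_num)
  have hn' : (n : ℝ) ≤ 6 * c.k + 2 := by exact_mod_cast hn
  have hnX : 2 + 8 * (n : ℝ) ≤ c.X := by nlinarith
  have h1 : c.X ^ 25000 ≤ c.b1 ^ (1 / 2 : ℝ) := by
    have h2 : (c.X ^ 50000) ^ (1 / 2 : ℝ) ≤ c.b1 ^ (1 / 2 : ℝ) :=
      Real.rpow_le_rpow (by positivity) hXb (by norm_num)
    have h3 : (c.X ^ 50000) ^ (1 / 2 : ℝ) = c.X ^ 25000 := by
      rw [← Real.rpow_natCast, ← Real.rpow_mul hX0.le, ← Real.rpow_natCast]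
      norm_num
    rwa [h3] at h2
  have h4 : 4 * ((n : ℝ) * H) ≤ c.b1 ^ (1 / 2 : ℝ) := by
    have h5 : 4 * ((n : ℝ) * H) ≤ c.X * c.X ^ 3000 := by
      have h0 : (0 : ℝ) ≤ n := Nat.cast_nonneg _
      calc 4 * ((n : ℝ) * H) ≤ 4 * ((n : ℝ) * (2 * c.X ^ 3000)) := by gcongr
        _ = (8 * n) * c.X ^ 3000 := by ring
        _ ≤ c.X * c.X ^ 3000 := by
            refine mul_le_mul_of_nonneg_right (by linarith) (by positivity)
    refine le_trans h5 (le_trans ?_ h1)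
    rw [← pow_succ']
    exact pow_le_pow_right₀ hX1 (by norm_num)
  have h6 : 0 < c.b1 ^ (1 / 2 : ℝ) := Real.rpow_pos_of_pos hb1 _
  have h7 : c.b1 ^ (1 / 2 : ℝ) * c.b1 ^ (1 / 2 : ℝ) = c.b1 := by
    rw [← Real.rpow_add hb1]
    norm_num
  have h8 : 4 * ((n : ℝ) * (H * (1 / c.b1))) ≤ 1 / c.b1 ^ (1 / 2 : ℝ) := by
    rw [le_div_iff₀ h6]
    have : 4 * ((n : ℝ) * (H * (1 / c.b1))) * c.b1 ^ (1 / 2 : ℝ) =
        4 * ((n : ℝ) * H) * c.b1 ^ (1 / 2 : ℝ) / c.b1 := by ring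
    rw [this, div_le_one hb1]
    calc 4 * ((n : ℝ) * H) * c.b1 ^ (1 / 2 : ℝ) ≤ c.b1 ^ (1 / 2 : ℝ) * c.b1 ^ (1 / 2 : ℝ) :=
          mul_le_mul_of_nonneg_right h4 h6.le
      _ = c.b1 := h7
  have h9 : 1 ≤ c.b1 ^ (1 / 2 : ℝ) := le_trans (one_le_pow₀ hX1) h1
  refine ⟨?_, h8, ?_, ?_⟩
  · have h10 : 1 / c.b1 ^ (1 / 2 : ℝ) ≤ 1 := by
      rw [div_le_one h6]
      exact h9
    have h11 : 0 ≤ (n : ℝ) * (H * (1 / c.b1)) := by positivity
    linarith
  · have h0 : (0 : ℝ) ≤ n := Nat.cast_nonneg _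
    nlinarith
  · nlinarith

end

theorem half_formula {V : Type u} {Val : Type v} [Fintype V] [Fintype Val] {a : ℕ}
    (M : LM V Val a) (j0 n : ℕ) (x y : V) :
    sumL n (fun l => M.pw j0 x l y * sumL n (fun l' => M.pw j0 x l' y * M.pg l l')) =
      M.fk j0 n x y ^ 2 + sumL n (fun l => pwx M j0 0 x l y * TS M l j0 0 x y) := by
  have h1 : M.fk j0 n x y ^ 2 = sumL n (fun l => M.fk j0 n x y * M.pw j0 x l y) := by
    rw [sumL_smul, sq]
    rfl
  rw [h1, ← sumL_add]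
  refine sumL_congr _ _ _ fun l hl => ?_
  have h2 := pg_sum0 M l j0 x y
  rw [hl] at h2
  rw [h2, pwx_zero]
  ring

/-- TRF: second moments for the instances. -/
theorem trf (hK : KERF_S.{u}) (hQ : QQF_S.{u}) (hN : NUMF_S.{u}) (hM : MRG_S.{u}) :
    TRF_S.{u, v} := by
  intro G _ _ _ c τ d Val _ a M jm hI
  obtain ⟨hX, -, -, hk, -, hq, -, -, -, hb1, -, -⟩ := hN G c
  have hd1 : 1 ≤ d := by rcases hI.d1 with h | h <;> omega
  have hlen := hI.len
  have hmid := hI.mid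
  have ha : a ≤ 6 * c.k + 2 := by nlinarith
  have hjm : jm + 1 ≤ a := by
    by_contra hh
    have h1 : a ≤ jm := by omega
    have h2 : d * a ≤ d * jm := Nat.mul_le_mul_left _ h1
    have h3 : d * (jm + 1) = d * jm + d := by ring
    omega
  have hH := hI.H0
  obtain ⟨n1, n2, n3, n4⟩ := num_facts hN c a M.H0 ha M.hH0 hH
  have hq0 := hq τ
  have hθ : 0 ≤ M.H0 * (1 / c.b1) := mul_nonneg (le_trans zero_le_one M.hH0) (by positivity)
  have hH0 : 0 ≤ M.H0 := le_trans zero_le_one M.hH0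
  set gS : ℕ → ℕ → ℝ := fun j i => c.gs τ (d * j) (d * i + 1) with hgS
  set gT : ℕ → ℕ → ℝ := fun j i => c.g2 τ (d * j) (d * i + 1) with hgT
  have gS0 : ∀ j i, 0 ≤ gS j i := fun j i => gs_nn hQ c τ _ _
  have gT0 : ∀ j i, 0 ≤ gT j i := fun j i => g2_nn hQ c τ _ _
  obtain ⟨-, -, -, -, -, kS, -, kR, kC, -, -, -⟩ := hK G c τ
  have gS1 : ∀ j i x y, j + i ≤ a → M.fk j i x y ≤ gS j i := by
    intro j i x y h
    rw [hI.fk _ _ _ _ h]
    exact kS _ _ _ _
  have gT1 : ∀ j i x, j + i ≤ a → ∑ y, M.fk j i x y ^ 2 ≤ gT j i := by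
    intro j i x h
    have h1 : ∀ y, M.fk j i x y ^ 2 = c.K τ (d * j) (d * i + 1) x y ^ 2 := fun y => by
      rw [hI.fk _ _ _ _ h]
    simp only [h1]
    exact kR _ _ _
  have gT2 : ∀ j i y, j + i ≤ a → ∑ x, M.fk j i x y ^ 2 ≤ gT j i := by
    intro j i y h
    have h1 : ∀ x, M.fk j i x y ^ 2 = c.K τ (d * j) (d * i + 1) x y ^ 2 := fun x => by
      rw [hI.fk _ _ _ _ h]
    simp only [h1]
    exact kC _ _ _
  have hkap : ∀ j v, ∑ u, ∑ e, M.kap j u e * ind (M.ex u e = v) ≤ 1 := by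
    intro j v
    simp only [hI.kap]
    exact le_of_eq (((hK G c τ).1 _ _).1.col v)
  -- the three ranges
  have hm0 : ∀ j0, j0 = 0 ∨ j0 = jm + 1 → (d * j0) % 3 ≠ 1 := by
    rintro j0 (rfl | rfl)
    · simp
    · omega
  have full : ∀ (E : ℕ), WTS gS M.H0 a 0 0 ≤ 2 * c.q τ * ((1 + M.H0 * (1 / c.b1)) ^ a - 1) := by
    intro _
    refine WTS_CT0 gS M.H0 _ _ gS0 hH0 a 0 0 fun ws R hw hl hR => ?_
    have h1 := (prod_le hM hN c τ d a 0 0 0 hI.d1 ws R hw hl hR (by norm_num) (by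
      right
      intro s len h
      rw [if_pos (Or.inr (hm0 0 (Or.inl rfl)))] at h
      rw [show 0 + 0 + a = a by ring, if_pos (by omega)] at h
      omega)).1 (by rw [zero_add]; omega)
    simpa using h1
  have second : WTS gT M.H0 (a - 1 - jm) (jm + 1) 0 ≤
      2 * c.q τ * ((1 + M.H0 * (1 / c.b1)) ^ (a - 1 - jm) - 1) := by
    refine WTS_CT0 gT M.H0 _ _ gT0 hH0 (a - 1 - jm) (jm + 1) 0 fun ws R hw hl hR => ?_
    have h1 := (prod_le hM hN c τ d (a - 1 - jm) (jm + 1) 0 0 hI.d1 ws R hw hl hR (by norm_num) (by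
      right
      intro s len h
      rw [if_pos (Or.inr (hm0 (jm + 1) (Or.inr rfl)))] at h
      rw [show jm + 1 + 0 + (a - 1 - jm) = a by omega, if_pos (by omega)] at h
      omega)).2 (by
        rw [zero_add]
        have h2 : d * (a - 1 - jm) + d * (jm + 1) = d * a := by
          rw [← Nat.mul_add]
          congr 1
          omega
        omega)
    simpa using h1
  have first : WTS gT M.H0 jm 0 0 ≤
      2 * c.q τ * c.b1 ^ (if d = 2 ∧ τ = true then 1 else 0) *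
        ((1 + M.H0 * (1 / c.b1)) ^ jm - 1) := by
    refine WTS_CT0 gT M.H0 _ _ gT0 hH0 jm 0 0 fun ws R hw hl hR => ?_
    exact (prod_le hM hN c τ d jm 0 0 (if d = 2 ∧ τ = true then 1 else 0) hI.d1 ws R hw hl hR
      (by split_ifs <;> norm_num) (by
      rcases Bool.eq_false_or_eq_true τ with hτ | hτ
      swap
      · left
        exact ⟨hτ, if_neg (by rw [hτ]; simp)⟩
      right
      intro s len h
      rw [if_pos (Or.inr (hm0 0 (Or.inl rfl)))] at h
      rw [show 0 + 0 + jm = jm by ring] at h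
      rcases hI.d1 with hd | hd
      · rw [if_neg (by omega)]
        subst hd
        rw [if_pos (by omega)] at h
        omega
      · rw [if_pos ⟨hd, hτ⟩]
        subst hd
        rw [if_neg (by omega)] at h
        omega)).2 (by
        rw [zero_add]
        rcases hI.d1 with hd | hd
        · subst hd
          omega
        · subst hd
          omega)
  -- numerics
  have hnum : ∀ n : ℕ, n ≤ a → (1 + M.H0 * (1 / c.b1)) ^ n - 1 ≤ 2 * (a * (M.H0 * (1 / c.b1))) := by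
    intro n hn
    have hn' : (n : ℝ) ≤ a := by exact_mod_cast hn
    have h1 : (n : ℝ) * (M.H0 * (1 / c.b1)) ≤ a * (M.H0 * (1 / c.b1)) :=
      mul_le_mul_of_nonneg_right hn' hθ
    refine le_trans (pow_lin _ n hθ (h1.trans n1)) ?_
    linarith
  have hqk : ∀ u : ℕ, u ≤ 2 → c.qq τ (c.k - u) ≤ 2 * c.q τ := by
    intro u hu
    exact (hQ G c τ).2.2.2.2.2.2.2.2.1 c.k u le_rfl (by omega) (by omega)
  have hb1' : (1 : ℝ) ≤ c.b1 ^ (1 / 2 : ℝ) := by
    have h0 : 0 ≤ 4 * ((a : ℝ) * (M.H0 * (1 / c.b1))) := by positivity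
    have h1 : 0 < c.b1 ^ (1 / 2 : ℝ) := Real.rpow_pos_of_pos hb1 _
    have h2 : c.X ^ 50000 ≤ c.b1 := (hN G c).2.2.2.2.2.2.2.2.2.2.1
    have h3 : (1 : ℝ) ≤ c.b1 := le_trans (one_le_pow₀ (by linarith)) h2
    exact Real.one_le_rpow h3 (by norm_num)
  have hinv : 1 / c.b1 ^ (1 / 2 : ℝ) ≤ 1 := by
    rw [div_le_one (by linarith)]
    exact hb1'
  have hone : ∀ n : ℕ, n ≤ a → 2 * c.q τ * ((1 + M.H0 * (1 / c.b1)) ^ n - 1) ≤
      c.q τ / c.b1 ^ (1 / 2 : ℝ) := by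
    intro n hn
    calc 2 * c.q τ * ((1 + M.H0 * (1 / c.b1)) ^ n - 1) ≤
        2 * c.q τ * (2 * (a * (M.H0 * (1 / c.b1)))) :=
          mul_le_mul_of_nonneg_left (hnum n hn) (by positivity)
      _ = c.q τ * (4 * (a * (M.H0 * (1 / c.b1)))) := by ring
      _ ≤ c.q τ * (1 / c.b1 ^ (1 / 2 : ℝ)) := mul_le_mul_of_nonneg_left n2 hq0.le
      _ = c.q τ / c.b1 ^ (1 / 2 : ℝ) := by ring
  have hone' : ∀ n : ℕ, n ≤ a → 2 * c.q τ * ((1 + M.H0 * (1 / c.b1)) ^ n - 1) ≤ c.q τ := by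
    intro n hn
    refine (hone n hn).trans ?_
    rw [div_eq_mul_one_div]
    exact mul_le_of_le_one_right hq0.le hinv
  have hl4 : 4 ≤ lam0F τ d c.X M.H0 := by
    unfold lam0F
    split_ifs
    · exact n4
    · exact le_rfl
  refine ⟨?_, ?_, ?_⟩
  · intro x
    simp only [half_formula]
    rw [Finset.sum_add_distrib]
    have h1 : ∑ u, M.fk 0 jm x u ^ 2 ≤ 2 * c.q τ := by
      refine (gT1 0 jm x (by omega)).trans ?_
      refine le_trans (le_of_eq ?_) (hqk 1 (by norm_num))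
      simp only [hgT]
      unfold Ctx.g2
      rcases hI.d1 with hd | hd
      · subst hd
        rw [if_pos (by omega)]
        congr 1
        omega
      · subst hd
        rw [if_pos (by omega)]
        congr 1
        omega
    have h2 := (BX_le M gT gT0 gT1 jm 0 0 x (by omega)).trans first
    unfold BX at h2
    unfold lam0F
    by_cases hd : d = 2 ∧ τ = true
    swap
    · have h3 := hone' jm (by omega)
      rw [if_neg hd, pow_zero, mul_one] at h2
      rw [if_neg hd]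
      linarith
    · rw [if_pos hd, pow_one] at h2
      rw [if_pos hd]
      have h3 : 2 * c.q τ * c.b1 * ((1 + M.H0 * (1 / c.b1)) ^ jm - 1) ≤
          c.q τ * (4 * a * M.H0) := by
        calc 2 * c.q τ * c.b1 * ((1 + M.H0 * (1 / c.b1)) ^ jm - 1) ≤
            2 * c.q τ * c.b1 * (2 * (a * (M.H0 * (1 / c.b1)))) :=
              mul_le_mul_of_nonneg_left (hnum jm (by omega)) (by positivity)
          _ = c.q τ * (4 * a * M.H0) * (c.b1 * (1 / c.b1)) := by ring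
          _ = c.q τ * (4 * a * M.H0) := by
              rw [mul_one_div_cancel hb1.ne', mul_one]
      have h4 : c.q τ * (2 + 4 * (a : ℝ) * M.H0) ≤ c.q τ * (c.X * M.H0) :=
        mul_le_mul_of_nonneg_left n3 hq0.le
      nlinarith
  · intro y
    simp only [half_formula]
    rw [Finset.sum_add_distrib]
    have h1 : ∑ u, M.fk (jm + 1) (a - 1 - jm) u y ^ 2 ≤ 2 * c.q τ := by
      refine (gT2 (jm + 1) (a - 1 - jm) y (by omega)).trans ?_
      refine le_trans (le_of_eq ?_) (hqk 2 (by norm_num))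
      simp only [hgT]
      unfold Ctx.g2
      have h2 : d * (a - 1 - jm) + d * (jm + 1) = d * a := by
        rw [← Nat.mul_add]
        congr 1
        omega
      rw [if_pos (by omega)]
      congr 1
      omega
    have h2 := (BY_le M gT gT0 gT2 hkap (a - 1 - jm) (jm + 1) 0 y (by omega)).trans second
    unfold BY at h2
    have h3 := hone' (a - 1 - jm) (by omega)
    nlinarith
  · intro x y z hz
    have h1 : sumL a (fun z' => M.pw 0 x z' y * (M.pg z z' - 1)) = TS M z 0 0 x y := by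
      have h2 := pg_sum0 M z 0 x y
      rw [hz] at h2
      have h3 : sumL a (fun z' => M.pw 0 x z' y * M.pg z z') =
          sumL a (fun z' => M.pw 0 x z' y * (M.pg z z' - 1)) + M.fk 0 a x y := by
        unfold LM.fk
        rw [← sumL_add]
        refine sumL_congr _ _ _ fun l _ => ?_
        ring
      linarith
    rw [h1]
    have h4 := TS_le M gS gS0 gS1 z 0 0 x y (by omega)
    rw [hz] at h4
    exact (h4.trans (full 0)).trans (hone a le_rfl)

end Pool.Agent.Lib.MP_688fd0_co.TF.H20
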