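import Pool.Agent.Lib.MP_688fd0_co.TE.H43.Wlk
import Pool.Agent.Lib.MP_688fd0_co.TE.H19.Tele
import Pool.Agent.Lib.MP_688fd0_co.TF.Iface2

/-!
# Theorem F: coupled links as links of modified kernels (general kernels)
-/

namespace Pool.Agent.Lib.MP_688fd0_co.TF.H20

open Pool.Agent.Lib.MP_688fd0_co.TE
open Pool.Agent.Lib.MP_688fd0_co.TF

universe u

section gen

variable {G : Type u} [Fintype G] [DecidableEq G]

variable (c : ℕ → Matrix G G ℝ) (m n : ℕ) (ρ : G → ℝ)

omit [Fintype G] [DecidableEq G] in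
theorem cpl_ne {p : ℕ} (h : p ≠ m) : cpl c m ρ p = c p := if_neg h

omit [Fintype G] [DecidableEq G] in
theorem cpl_eq (a b : G) : cpl c m ρ m a b = c m a b * ρ b := by
  unfold cpl
  rw [if_pos rfl]

theorem kn_before (i n : ℕ) (h : i + n < m) : Kn (cpl c m ρ) i n = Kn c i n :=
  TE.H43.kn_congr _ _ _ _ fun _ _ _ => cpl_ne c m ρ (by omega)

theorem kn_after (i n : ℕ) (h : m ≤ i) : Kn (cpl c m ρ) i n = Kn c i n :=
  TE.H43.kn_congr _ _ _ _ fun _ _ _ => cpl_ne c m ρ (by omega)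

theorem kn_at (i n : ℕ) (hn : 1 ≤ n) (h : i + n = m) (a b : G) :
    Kn (cpl c m ρ) i n a b = Kn c i n a b * ρ b := by
  obtain ⟨n, rfl⟩ : ∃ n', n = n' + 1 := ⟨n - 1, by omega⟩
  simp only [Kn]
  rw [kn_before c m ρ i n (by omega)]
  have e : i + n + 1 = m := by omega
  rw [e, Matrix.mul_apply, Matrix.mul_apply, Finset.sum_mul]
  exact Finset.sum_congr rfl fun t _ => by rw [cpl_eq]; ring

theorem kn_across (i n : ℕ) (h1 : i < m) (h2 : m ≤ i + n) (a b : G) :
    Kn (cpl c m ρ) i n a b = ∑ u, Kn c i (m - i) a u * ρ u * Kn c m (i + n - m) u b := by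
  have e1 : n = (m - i) + (i + n - m) := by omega
  conv_lhs => rw [e1]
  rw [TE.H43.kn_add, Matrix.mul_apply]
  refine Finset.sum_congr rfl fun u _ => ?_
  rw [kn_at c m ρ i (m - i) (by omega) (by omega), kn_after c m ρ _ _ (by omega),
    show i + (m - i) = m by omega]

theorem kn_nn (hc : ∀ p a b, 0 ≤ c p a b) (i n : ℕ) (a b : G) : 0 ≤ Kn c i n a b := by
  induction n generalizing b with
  | zero =>
    simp only [Kn, Matrix.one_apply]
    split <;> norm_num
  | succ n ih =>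
    simp only [Kn, Matrix.mul_apply]
    exact Finset.sum_nonneg fun t _ => mul_nonneg (ih t) (hc _ _ _)

/-- Elementary properties of the coupling weight. -/
theorem rho_facts {K1 K2 : ℝ} (h1 : 0 ≤ K1) (h2 : 0 ≤ K2) :
    0 ≤ rho K1 K2 ∧ rho K1 K2 ≤ 1 ∧ K1 * rho K1 K2 ≤ K2 ∧ rho K1 K2 * K2 ≤ K1 ∧
    K1 * rho K1 K2 * K2 = min K1 K2 ^ 2 := by
  unfold rho
  rcases h1.eq_or_lt with h | h
  · subst h
    simp [h2]
  rcases h2.eq_or_lt with h' | h'
  · subst h'
    simp [h1]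
  have e0 : 0 ≤ min (K1 / K2) (K2 / K1) := le_min (by positivity) (by positivity)
  have e1 : K1 * min (K1 / K2) (K2 / K1) ≤ K2 := by
    calc K1 * min (K1 / K2) (K2 / K1) ≤ K1 * (K2 / K1) :=
          mul_le_mul_of_nonneg_left (min_le_right _ _) h.le
      _ = K2 := by field_simp
  have e2 : min (K1 / K2) (K2 / K1) * K2 ≤ K1 := by
    calc min (K1 / K2) (K2 / K1) * K2 ≤ K1 / K2 * K2 :=
          mul_le_mul_of_nonneg_right (min_le_left _ _) h'.le
      _ = K1 := by field_simp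
  refine ⟨e0, ?_, e1, e2, ?_⟩
  · rcases le_total K1 K2 with h3 | h3
    · exact (min_le_left _ _).trans ((div_le_one h').2 h3)
    · exact (min_le_right _ _).trans ((div_le_one h).2 h3)
  · rcases le_total K1 K2 with h3 | h3
    · have : K1 / K2 ≤ K2 / K1 := by
        rw [div_le_div_iff₀ h' h]
        nlinarith
      rw [min_eq_left this, min_eq_left h3]
      field_simp
    · have : K2 / K1 ≤ K1 / K2 := by
        rw [div_le_div_iff₀ h h']
        nlinarith
      rw [min_eq_right this, min_eq_right h3]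
      field_simp

/-- The coupling weight for general kernels. -/
noncomputable def rhoW (x y v : G) : ℝ := rho (Kn c 0 m x v) (Kn c m (n - m) v y)

/-- The total weight of the coupled link. -/
noncomputable def massL (x y : G) : ℝ := ∑ v, min (Kn c 0 m x v) (Kn c m (n - m) v y) ^ 2

theorem mass_eq (hc : ∀ p a b, 0 ≤ c p a b) (hm : 1 ≤ m) (hmn : m ≤ n) (x y : G) :
    Kn (cpl c m (rhoW c m n x y)) 0 n x y = massL c m n x y := by
  rw [kn_across c m _ 0 n (by omega) (by omega)]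
  refine Finset.sum_congr rfl fun u _ => ?_
  rw [Nat.sub_zero, Nat.zero_add]
  exact (rho_facts (kn_nn c hc _ _ _ _) (kn_nn c hc _ _ _ _)).2.2.2.2

theorem rhoW_nn (hc : ∀ p a b, 0 ≤ c p a b) (x y v : G) : 0 ≤ rhoW c m n x y v :=
  (rho_facts (kn_nn c hc _ _ _ _) (kn_nn c hc _ _ _ _)).1

theorem cpl_nn (hc : ∀ p a b, 0 ≤ c p a b) (x y : G) (p : ℕ) (a b : G) :
    0 ≤ cpl c m (rhoW c m n x y) p a b := by
  by_cases h : p = m
  · subst h
    rw [cpl_eq]
    exact mul_nonneg (hc _ _ _) (rhoW_nn c _ _ hc _ _ _)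
  · rw [cpl_ne _ _ _ h]
    exact hc _ _ _

/-- First factor, before the middle. -/
theorem fac0_before (x y : G) (j : ℕ) (hj : j < m) (v : G) :
    Kn (cpl c m (rhoW c m n x y)) 0 j x v = Kn c 0 j x v := by
  rw [kn_before c m _ 0 j (by omega)]

/-- Second factor with one step, before the middle. -/
theorem fac1_before (hc : ∀ p a b, 0 ≤ c p a b) (hmn : m ≤ n) (x y : G) (j : ℕ)
    (hj : j < m) (v v' : G) :
    cpl c m (rhoW c m n x y) (j + 1) v v' *
      Kn (cpl c m (rhoW c m n x y)) (j + 1) (n - 1 - j) v' y ≤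
    c (j + 1) v v' * ∑ u, Kn c (j + 1) (m - 1 - j) v' u * Kn c 0 m x u := by
  rcases Nat.lt_or_ge (j + 1) m with h | h
  · rw [cpl_ne _ _ _ (by omega), kn_across c m _ (j + 1) (n - 1 - j) h (by omega)]
    refine mul_le_mul_of_nonneg_left ?_ (hc _ _ _)
    refine Finset.sum_le_sum fun u _ => ?_
    rw [mul_assoc, show m - (j + 1) = m - 1 - j by omega,
      show j + 1 + (n - 1 - j) - m = n - m by omega]
    exact mul_le_mul_of_nonneg_left
      (rho_facts (kn_nn c hc _ _ _ _) (kn_nn c hc _ _ _ _)).2.2.2.1 (kn_nn c hc _ _ _ _)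
  · have hj1 : j + 1 = m := by omega
    rw [hj1, cpl_eq, kn_after c m _ m _ le_rfl, show n - 1 - j = n - m by omega,
      show m - 1 - j = 0 by omega]
    simp only [Kn, Matrix.one_apply, ite_mul, one_mul, zero_mul]
    rw [Finset.sum_ite_eq, if_pos (Finset.mem_univ _), mul_assoc]
    exact mul_le_mul_of_nonneg_left
      (rho_facts (kn_nn c hc _ _ _ _) (kn_nn c hc _ _ _ _)).2.2.2.1 (hc _ _ _)

/-- Second factor, before the middle. -/
theorem fac2_before (hc : ∀ p a b, 0 ≤ c p a b) (hmn : m ≤ n) (x y : G) (j : ℕ)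
    (hj : j < m) (v : G) :
    Kn (cpl c m (rhoW c m n x y)) j (n - j) v y ≤
      ∑ u, Kn c j (m - j) v u * Kn c 0 m x u := by
  rw [kn_across c m _ j (n - j) hj (by omega)]
  refine Finset.sum_le_sum fun u _ => ?_
  rw [mul_assoc, show j + (n - j) - m = n - m by omega]
  exact mul_le_mul_of_nonneg_left
    (rho_facts (kn_nn c hc _ _ _ _) (kn_nn c hc _ _ _ _)).2.2.2.1 (kn_nn c hc _ _ _ _)

/-- First factor, from the middle on. -/
theorem fac0_after (hc : ∀ p a b, 0 ≤ c p a b) (hm : 1 ≤ m) (x y : G) (j : ℕ) (hj : m ≤ j)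
    (v : G) :
    Kn (cpl c m (rhoW c m n x y)) 0 j x v ≤ ∑ u, Kn c m (n - m) u y * Kn c m (j - m) u v := by
  rw [kn_across c m _ 0 j (by omega) (by omega)]
  refine Finset.sum_le_sum fun u _ => ?_
  rw [Nat.sub_zero, Nat.zero_add]
  exact mul_le_mul_of_nonneg_right
    (rho_facts (kn_nn c hc _ _ _ _) (kn_nn c hc _ _ _ _)).2.2.1 (kn_nn c hc _ _ _ _)

theorem sum_steps (c' : ℕ → Matrix G G ℝ) (x y : G) (j : ℕ) (hj : j < n) :
    ∑ v, ∑ v', Kn c' 0 j x v * c' (j + 1) v v' * Kn c' (j + 1) (n - 1 - j) v' y =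
      Kn c' 0 n x y := by
  conv_rhs => rw [show n = j + (1 + (n - 1 - j)) by omega]
  rw [TE.H43.kn_add, Matrix.mul_apply]
  refine Finset.sum_congr rfl fun v _ => ?_
  rw [TE.H19.Kn_first, Finset.mul_sum]
  refine Finset.sum_congr rfl fun v' _ => ?_
  rw [Nat.zero_add]
  ring

end gen

end Pool.Agent.Lib.MP_688fd0_co.TF.H20
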