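import Pool.Agent.Lib.MP_688fd0_co.TE.H19.Suml
import Pool.Agent.Lib.MP_688fd0_co.TF.Iface3

/-!
# Theorem F: module TRF, abstract part

Exact formula for the second moments of labelled walks, and bounds by sums over compositions.
-/

namespace Pool.Agent.Lib.MP_688fd0_co.TF.H20

open Pool.Agent.Lib.MP_688fd0_co.TE
open Pool.Agent.Lib.MP_688fd0_co.TE.H19
open Pool.Agent.Lib.MP_688fd0_co.TF

universe u v

section

variable {V : Type u} {Val : Type v} [Fintype V] [Fintype Val] {a : ℕ} (M : LM V Val a)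

/-- The correction of the second moment. -/
noncomputable def TS : List (V × Val) → ℕ → ℕ → V → V → ℝ
  | [], _, _, _, _ => 0
  | s :: l, j0, i, x, y =>
    M.fk j0 i x s.1 * (M.kap (j0 + i) s.1 s.2 / M.P s.1 s.2) *
      (M.fk (j0 + i + 1) l.length (M.ex s.1 s.2) y +
        TS l (j0 + i + 1) 0 (M.ex s.1 s.2) y) + TS l j0 (i + 1) x y

/-- Walks through the slots `j0, ..., j0 + i - 1` followed by the sites `l'`. -/
noncomputable def pwx (j0 i : ℕ) (x : V) (l' : List (V × Val)) (y : V) : ℝ :=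
  sumL i (fun l0 => M.pw j0 x (l0 ++ l') y)

/-- Sums over compositions. -/
def WTS (g : ℕ → ℕ → ℝ) (H : ℝ) : ℕ → ℕ → ℕ → ℝ
  | 0, _, _ => 0
  | n + 1, j0, i => g j0 i * H * (g (j0 + i + 1) n + WTS g H n (j0 + i + 1) 0) +
      WTS g H n j0 (i + 1)

theorem pwx_nil (j0 i : ℕ) (x y : V) : pwx M j0 i x [] y = M.fk j0 i x y := by
  unfold pwx LM.fk
  simp only [List.append_nil]

theorem pwx_zero (j0 : ℕ) (x y : V) (l : List (V × Val)) : pwx M j0 0 x l y = M.pw j0 x l y := rfl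

theorem pwx_nn (j0 i : ℕ) (x y : V) (l : List (V × Val)) : 0 ≤ pwx M j0 i x l y :=
  sumL_nonneg _ _ fun _ _ => pw_nonneg M _ _ _ _

theorem pwx_sum (j0 i : ℕ) (x y : V) (l : List (V × Val)) :
    ∑ s, pwx M j0 i x (s :: l) y = pwx M j0 (i + 1) x l y := by
  unfold pwx
  rw [sumL_append i 1, ← sumL_sum]
  refine sumL_congr _ _ _ fun l0 _ => ?_
  change _ = ∑ s, M.pw j0 x (l0 ++ [s] ++ l) y
  simp only [List.append_assoc, List.singleton_append]

theorem pwx_cons (j0 i : ℕ) (x y : V) (s : V × Val) (l : List (V × Val)) :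
    pwx M j0 i x (s :: l) y = M.fk j0 i x s.1 * M.kap (j0 + i) s.1 s.2 *
      M.pw (j0 + i + 1) (M.ex s.1 s.2) l y := by
  unfold pwx
  have h : ∀ l0 : List (V × Val), l0.length = i → M.pw j0 x (l0 ++ s :: l) y =
      (M.kap (j0 + i) s.1 s.2 * M.pw (j0 + i + 1) (M.ex s.1 s.2) l y) * M.pw j0 x l0 s.1 := by
    intro l0 h0
    rw [pw_append, h0]
    ring
  rw [sumL_congr _ _ _ h, sumL_smul]
  unfold LM.fk
  ring

theorem TS_nn (l : List (V × Val)) (j0 i : ℕ) (x y : V) : 0 ≤ TS M l j0 i x y := by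
  induction l generalizing j0 i x with
  | nil => exact le_refl _
  | cons s l ih =>
    have h1 := fk_nonneg M j0 i x s.1
    have h2 : 0 ≤ M.kap (j0 + i) s.1 s.2 / M.P s.1 s.2 := div_nonneg (M.hk0 _ _ _) (M.hP0 _ _)
    have h3 := fk_nonneg M (j0 + i + 1) l.length (M.ex s.1 s.2) y
    exact add_nonneg (mul_nonneg (mul_nonneg h1 h2) (add_nonneg h3 (ih _ _ _))) (ih _ _ _)

/-- The exact formula. -/
theorem pg_sum (l : List (V × Val)) (j0 i : ℕ) (x y : V) :
    sumL l.length (fun l' => pwx M j0 i x l' y * M.pg l l') =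
      M.fk j0 (i + l.length) x y + TS M l j0 i x y := by
  induction l generalizing j0 i x with
  | nil =>
    change pwx M j0 i x [] y * 1 = _ + 0
    rw [pwx_nil, mul_one, add_zero]
    rfl
  | cons s l ih =>
    rw [List.length_cons]
    change ∑ s', sumL l.length (fun l' => pwx M j0 i x (s' :: l') y *
      ((1 + ind (s = s') / M.P s.1 s.2) * M.pg l l')) = _
    have h1 : ∀ s', sumL l.length (fun l' => pwx M j0 i x (s' :: l') y *
        ((1 + ind (s = s') / M.P s.1 s.2) * M.pg l l')) =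
        sumL l.length (fun l' => pwx M j0 i x (s' :: l') y * M.pg l l') +
        ind (s = s') * (1 / M.P s.1 s.2 *
          sumL l.length (fun l' => pwx M j0 i x (s' :: l') y * M.pg l l')) := by
      intro s'
      rw [← mul_assoc, ← sumL_smul, ← sumL_add]
      refine sumL_congr _ _ _ fun l' _ => ?_
      ring
    simp only [h1]
    rw [Finset.sum_add_distrib]
    have h2 : ∑ s', ind (s = s') * (1 / M.P s.1 s.2 *
          sumL l.length (fun l' => pwx M j0 i x (s' :: l') y * M.pg l l')) =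
        1 / M.P s.1 s.2 * sumL l.length (fun l' => pwx M j0 i x (s :: l') y * M.pg l l') := by
      rw [Finset.sum_eq_single s]
      · rw [ind_of rfl, one_mul]
      · intro s' _ hs
        rw [ind_not (fun h => hs h.symm), zero_mul]
      · intro h
        exact absurd (Finset.mem_univ _) h
    rw [h2, ← sumL_sum]
    have h3 : sumL l.length (fun l' => ∑ s', pwx M j0 i x (s' :: l') y * M.pg l l') =
        M.fk j0 (i + 1 + l.length) x y + TS M l j0 (i + 1) x y := by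
      rw [← ih]
      refine sumL_congr _ _ _ fun l' _ => ?_
      rw [← Finset.sum_mul, pwx_sum]
    have h4 : sumL l.length (fun l' => pwx M j0 i x (s :: l') y * M.pg l l') =
        M.fk j0 i x s.1 * M.kap (j0 + i) s.1 s.2 *
          (M.fk (j0 + i + 1) l.length (M.ex s.1 s.2) y +
            TS M l (j0 + i + 1) 0 (M.ex s.1 s.2) y) := by
      have h5 := ih (j0 + i + 1) 0 (M.ex s.1 s.2)
      rw [zero_add] at h5
      rw [← h5, ← sumL_smul]
      refine sumL_congr _ _ _ fun l' _ => ?_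
      rw [pwx_cons, pwx_zero]
      ring
    rw [h3, h4]
    change _ = M.fk j0 (i + (l.length + 1)) x y + (M.fk j0 i x s.1 *
      (M.kap (j0 + i) s.1 s.2 / M.P s.1 s.2) *
      (M.fk (j0 + i + 1) l.length (M.ex s.1 s.2) y +
        TS M l (j0 + i + 1) 0 (M.ex s.1 s.2) y) + TS M l j0 (i + 1) x y)
    rw [show i + (l.length + 1) = i + 1 + l.length by ring]
    ring

theorem pg_sum0 (l : List (V × Val)) (j0 : ℕ) (x y : V) :
    sumL l.length (fun l' => M.pw j0 x l' y * M.pg l l') =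
      M.fk j0 l.length x y + TS M l j0 0 x y := by
  have h := pg_sum M l j0 0 x y
  rw [zero_add] at h
  rw [← h]
  rfl

theorem WTS_nn (g : ℕ → ℕ → ℝ) (H : ℝ) (hg : ∀ j i, 0 ≤ g j i) (hH : 0 ≤ H) (n j0 i : ℕ) :
    0 ≤ WTS g H n j0 i := by
  induction n generalizing j0 i with
  | zero => exact le_refl _
  | succ n ih =>
    exact add_nonneg (mul_nonneg (mul_nonneg (hg _ _) hH) (add_nonneg (hg _ _) (ih _ _))) (ih _ _)

theorem kapP_le (j : ℕ) (u : V) (e : Val) : M.kap j u e / M.P u e ≤ M.H0 := by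
  have hH : (0 : ℝ) ≤ M.H0 := le_trans zero_le_one M.hH0
  rcases (M.hP0 u e).eq_or_lt with h | h
  · rw [← h, div_zero]
    exact hH
  · rw [div_le_iff₀ h]
    exact M.hkH _ _ _

/-- Pointwise bound. -/
theorem TS_le (g : ℕ → ℕ → ℝ) (hg0 : ∀ j i, 0 ≤ g j i)
    (hg : ∀ j i x y, j + i ≤ a → M.fk j i x y ≤ g j i) (l : List (V × Val)) (j0 i : ℕ) (x y : V)
    (h : j0 + i + l.length ≤ a) : TS M l j0 i x y ≤ WTS g M.H0 l.length j0 i := by
  have hH : (0 : ℝ) ≤ M.H0 := le_trans zero_le_one M.hH0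
  induction l generalizing j0 i x with
  | nil => exact le_refl _
  | cons s l ih =>
    rw [List.length_cons] at h
    have h1 := hg j0 i x s.1 (by omega)
    have h2 := kapP_le M (j0 + i) s.1 s.2
    have h3 := hg (j0 + i + 1) l.length (M.ex s.1 s.2) y (by omega)
    have h4 := ih (j0 + i + 1) 0 (M.ex s.1 s.2) (by omega)
    have h5 := ih j0 (i + 1) x (by omega)
    have h6 : 0 ≤ M.kap (j0 + i) s.1 s.2 / M.P s.1 s.2 := div_nonneg (M.hk0 _ _ _) (M.hP0 _ _)
    have h7 := fk_nonneg M j0 i x s.1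
    have h8 := fk_nonneg M (j0 + i + 1) l.length (M.ex s.1 s.2) y
    have h9 := TS_nn M l (j0 + i + 1) 0 (M.ex s.1 s.2) y
    change M.fk j0 i x s.1 * (M.kap (j0 + i) s.1 s.2 / M.P s.1 s.2) *
      (M.fk (j0 + i + 1) l.length (M.ex s.1 s.2) y +
        TS M l (j0 + i + 1) 0 (M.ex s.1 s.2) y) + TS M l j0 (i + 1) x y ≤
      g j0 i * M.H0 * (g (j0 + i + 1) l.length + WTS g M.H0 l.length (j0 + i + 1) 0) +
        WTS g M.H0 l.length j0 (i + 1)
    refine add_le_add (mul_le_mul (mul_le_mul h1 h2 h6 (hg0 _ _)) (add_le_add h3 h4)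
      (add_nonneg h8 h9) (mul_nonneg (hg0 _ _) hH)) h5

/-- Sum over the walks and the end points. -/
noncomputable def BX (n j0 i : ℕ) (x : V) : ℝ :=
  ∑ u, sumL n (fun l => pwx M j0 i x l u * TS M l j0 i x u)

/-- Sum over the walks and the starting points. -/
noncomputable def BY (n j0 i : ℕ) (y : V) : ℝ :=
  ∑ v, sumL n (fun l => pwx M j0 i v l y * TS M l j0 i v y)

theorem pair_cons (n j0 i : ℕ) (x y : V) :
    sumL (n + 1) (fun l => pwx M j0 i x l y * TS M l j0 i x y) =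
      ∑ s : V × Val, M.fk j0 i x s.1 ^ 2 * (M.kap (j0 + i) s.1 s.2 *
        (M.kap (j0 + i) s.1 s.2 / M.P s.1 s.2)) *
        (M.fk (j0 + i + 1) n (M.ex s.1 s.2) y ^ 2 +
          sumL n (fun l => pwx M (j0 + i + 1) 0 (M.ex s.1 s.2) l y *
            TS M l (j0 + i + 1) 0 (M.ex s.1 s.2) y)) +
      sumL n (fun l => pwx M j0 (i + 1) x l y * TS M l j0 (i + 1) x y) := by
  change ∑ s : V × Val, sumL n (fun l => pwx M j0 i x (s :: l) y * TS M (s :: l) j0 i x y) = _
  have h1 : ∀ s : V × Val, sumL n (fun l => pwx M j0 i x (s :: l) y * TS M (s :: l) j0 i x y) =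
      M.fk j0 i x s.1 ^ 2 * (M.kap (j0 + i) s.1 s.2 *
        (M.kap (j0 + i) s.1 s.2 / M.P s.1 s.2)) *
        (M.fk (j0 + i + 1) n (M.ex s.1 s.2) y ^ 2 +
          sumL n (fun l => pwx M (j0 + i + 1) 0 (M.ex s.1 s.2) l y *
            TS M l (j0 + i + 1) 0 (M.ex s.1 s.2) y)) +
      sumL n (fun l => pwx M j0 i x (s :: l) y * TS M l j0 (i + 1) x y) := by
    intro s
    have h2 : M.fk (j0 + i + 1) n (M.ex s.1 s.2) y ^ 2 =
        sumL n (fun l => M.fk (j0 + i + 1) n (M.ex s.1 s.2) y *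
          M.pw (j0 + i + 1) (M.ex s.1 s.2) l y) := by
      rw [sumL_smul, sq]
      rfl
    rw [h2, ← sumL_add, ← sumL_smul, ← sumL_add]
    refine sumL_congr _ _ _ fun l hl => ?_
    rw [pwx_zero]
    have h3 : TS M (s :: l) j0 i x y = M.fk j0 i x s.1 *
        (M.kap (j0 + i) s.1 s.2 / M.P s.1 s.2) *
        (M.fk (j0 + i + 1) n (M.ex s.1 s.2) y +
          TS M l (j0 + i + 1) 0 (M.ex s.1 s.2) y) + TS M l j0 (i + 1) x y := by
      rw [← hl]
      rfl
    rw [h3, mul_add (pwx M j0 i x (s :: l) y), pwx_cons]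
    ring
  simp only [h1]
  rw [Finset.sum_add_distrib, ← sumL_sum]
  congr 1
  refine sumL_congr _ _ _ fun l _ => ?_
  rw [← Finset.sum_mul, pwx_sum]

theorem BX_le (g : ℕ → ℕ → ℝ) (hg0 : ∀ j i, 0 ≤ g j i)
    (hg : ∀ j i x, j + i ≤ a → ∑ y, M.fk j i x y ^ 2 ≤ g j i) (n j0 i : ℕ) (x : V)
    (h : j0 + i + n ≤ a) : BX M n j0 i x ≤ WTS g M.H0 n j0 i := by
  have hH : (0 : ℝ) ≤ M.H0 := le_trans zero_le_one M.hH0
  induction n generalizing j0 i x with
  | zero =>
    change ∑ u, pwx M j0 i x [] u * 0 ≤ 0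
    simp
  | succ n ih =>
    unfold BX
    simp only [pair_cons]
    rw [Finset.sum_add_distrib]
    refine add_le_add ?_ (ih j0 (i + 1) x (by omega))
    rw [Finset.sum_comm]
    have h1 : ∀ s : V × Val, ∑ y, M.fk j0 i x s.1 ^ 2 * (M.kap (j0 + i) s.1 s.2 *
        (M.kap (j0 + i) s.1 s.2 / M.P s.1 s.2)) *
        (M.fk (j0 + i + 1) n (M.ex s.1 s.2) y ^ 2 +
          sumL n (fun l => pwx M (j0 + i + 1) 0 (M.ex s.1 s.2) l y *
            TS M l (j0 + i + 1) 0 (M.ex s.1 s.2) y)) ≤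
        M.fk j0 i x s.1 ^ 2 * (M.kap (j0 + i) s.1 s.2 * M.H0) *
          (g (j0 + i + 1) n + WTS g M.H0 n (j0 + i + 1) 0) := by
      intro s
      rw [← Finset.mul_sum, Finset.sum_add_distrib]
      have h2 := hg (j0 + i + 1) n (M.ex s.1 s.2) (by omega)
      have h3 := ih (j0 + i + 1) 0 (M.ex s.1 s.2) (by omega)
      have h4 : 0 ≤ M.kap (j0 + i) s.1 s.2 := M.hk0 _ _ _
      have h5 : M.kap (j0 + i) s.1 s.2 * (M.kap (j0 + i) s.1 s.2 / M.P s.1 s.2) ≤
          M.kap (j0 + i) s.1 s.2 * M.H0 := mul_le_mul_of_nonneg_left (kapP_le M _ _ _) h4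
      refine mul_le_mul (mul_le_mul_of_nonneg_left h5 (sq_nonneg _)) (add_le_add h2 h3) ?_
        (mul_nonneg (sq_nonneg _) (mul_nonneg h4 hH))
      refine add_nonneg (Finset.sum_nonneg fun _ _ => sq_nonneg _)
        (Finset.sum_nonneg fun _ _ => sumL_nonneg _ _ fun l _ =>
          mul_nonneg (pwx_nn M _ _ _ _ _) (TS_nn M _ _ _ _ _))
    refine le_trans (Finset.sum_le_sum fun s _ => h1 s) ?_
    have h6 : ∀ s : V × Val, M.fk j0 i x s.1 ^ 2 * (M.kap (j0 + i) s.1 s.2 * M.H0) *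
          (g (j0 + i + 1) n + WTS g M.H0 n (j0 + i + 1) 0) =
        (M.H0 * (g (j0 + i + 1) n + WTS g M.H0 n (j0 + i + 1) 0)) *
          (M.fk j0 i x s.1 ^ 2 * M.kap (j0 + i) s.1 s.2) := fun s => by ring
    simp only [h6]
    rw [← Finset.mul_sum, Fintype.sum_prod_type]
    have h7 : ∑ u, ∑ e, M.fk j0 i x u ^ 2 * M.kap (j0 + i) u e ≤ g j0 i := by
      refine le_trans (Finset.sum_le_sum fun u _ => ?_) (hg j0 i x (by omega))
      rw [← Finset.mul_sum]
      exact mul_le_of_le_one_right (sq_nonneg _) (M.hk1 _ _)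
    have h8 : 0 ≤ M.H0 * (g (j0 + i + 1) n + WTS g M.H0 n (j0 + i + 1) 0) :=
      mul_nonneg hH (add_nonneg (hg0 _ _) (WTS_nn g M.H0 hg0 hH _ _ _))
    refine le_trans (mul_le_mul_of_nonneg_left h7 h8) (le_of_eq ?_)
    ring

theorem BY_le [DecidableEq V] (g : ℕ → ℕ → ℝ) (hg0 : ∀ j i, 0 ≤ g j i)
    (hg : ∀ j i y, j + i ≤ a → ∑ x, M.fk j i x y ^ 2 ≤ g j i)
    (hk : ∀ j v, ∑ u, ∑ e, M.kap j u e * ind (M.ex u e = v) ≤ 1) (n j0 i : ℕ) (y : V)
    (h : j0 + i + n ≤ a) : BY M n j0 i y ≤ WTS g M.H0 n j0 i := by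
  have hH : (0 : ℝ) ≤ M.H0 := le_trans zero_le_one M.hH0
  induction n generalizing j0 i with
  | zero =>
    change ∑ u, pwx M j0 i u [] y * 0 ≤ 0
    simp
  | succ n ih =>
    unfold BY
    simp only [pair_cons]
    rw [Finset.sum_add_distrib]
    refine add_le_add ?_ (ih j0 (i + 1) (by omega))
    rw [Finset.sum_comm]
    set ψ : V → ℝ := fun v => M.fk (j0 + i + 1) n v y ^ 2 +
          sumL n (fun l => pwx M (j0 + i + 1) 0 v l y * TS M l (j0 + i + 1) 0 v y) with hψ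
    have hψ0 : ∀ v, 0 ≤ ψ v := fun v => add_nonneg (sq_nonneg _) (sumL_nonneg _ _ fun l _ =>
          mul_nonneg (pwx_nn M _ _ _ _ _) (TS_nn M _ _ _ _ _))
    have hψ1 : ∑ v, ψ v ≤ g (j0 + i + 1) n + WTS g M.H0 n (j0 + i + 1) 0 := by
      simp only [hψ]
      rw [Finset.sum_add_distrib]
      exact add_le_add (hg _ _ _ (by omega)) (ih (j0 + i + 1) 0 (by omega))
    have h1 : ∀ s : V × Val, ∑ v, M.fk j0 i v s.1 ^ 2 * (M.kap (j0 + i) s.1 s.2 *
        (M.kap (j0 + i) s.1 s.2 / M.P s.1 s.2)) * ψ (M.ex s.1 s.2) ≤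
        (g j0 i * M.H0) * (M.kap (j0 + i) s.1 s.2 * ψ (M.ex s.1 s.2)) := by
      intro s
      rw [← Finset.sum_mul, ← Finset.sum_mul]
      have h2 := hg j0 i s.1 (by omega)
      have h4 : 0 ≤ M.kap (j0 + i) s.1 s.2 := M.hk0 _ _ _
      have h5 : M.kap (j0 + i) s.1 s.2 * (M.kap (j0 + i) s.1 s.2 / M.P s.1 s.2) ≤
          M.kap (j0 + i) s.1 s.2 * M.H0 := mul_le_mul_of_nonneg_left (kapP_le M _ _ _) h4
      have h9 : 0 ≤ M.kap (j0 + i) s.1 s.2 * (M.kap (j0 + i) s.1 s.2 / M.P s.1 s.2) :=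
        mul_nonneg h4 (div_nonneg h4 (M.hP0 _ _))
      refine le_trans (mul_le_mul_of_nonneg_right (mul_le_mul h2 h5 h9 (hg0 _ _)) (hψ0 _))
        (le_of_eq ?_)
      ring
    refine le_trans (Finset.sum_le_sum fun s _ => h1 s) ?_
    rw [← Finset.mul_sum, Fintype.sum_prod_type]
    have h7 : ∑ u, ∑ e, M.kap (j0 + i) u e * ψ (M.ex u e) ≤ ∑ v, ψ v := by
      have h10 : ∀ u e, M.kap (j0 + i) u e * ψ (M.ex u e) =
          ∑ v, M.kap (j0 + i) u e * ind (M.ex u e = v) * ψ v := by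
        intro u e
        rw [Finset.sum_eq_single (M.ex u e)]
        · rw [ind_of rfl, mul_one]
        · intro v _ hv
          rw [ind_not (fun h => hv h.symm), mul_zero, zero_mul]
        · intro h
          exact absurd (Finset.mem_univ _) h
      simp only [h10]
      have h11 : ∑ u, ∑ e, ∑ v, M.kap (j0 + i) u e * ind (M.ex u e = v) * ψ v =
          ∑ v, (∑ u, ∑ e, M.kap (j0 + i) u e * ind (M.ex u e = v)) * ψ v := by
        simp only [Finset.sum_mul]
        rw [Finset.sum_comm (s := (Finset.univ : Finset V)) (t := (Finset.univ : Finset V))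
          (f := fun v u => ∑ e, M.kap (j0 + i) u e * ind (M.ex u e = v) * ψ v)]
        exact Finset.sum_congr rfl fun u _ => Finset.sum_comm
      rw [h11]
      refine Finset.sum_le_sum fun v _ => ?_
      exact mul_le_of_le_one_left (hψ0 v) (hk _ _)
    refine le_trans (mul_le_mul_of_nonneg_left (h7.trans hψ1) (mul_nonneg (hg0 _ _) hH))
      (le_of_eq ?_)
    ring

end

end Pool.Agent.Lib.MP_688fd0_co.TF.H20
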