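import Pool.Agent.Lib.MP_688fd0_co.TF.H20.Trf1

/-!
# Theorem F: module TRF, compositions
-/

namespace Pool.Agent.Lib.MP_688fd0_co.TF.H20

/-- `ws` is the list of windows of a composition with end slot `j0 + i + n`. -/
def CT : ℕ → ℕ → ℕ → List (ℕ × ℕ) → Prop
  | 0, j0, i, ws => ws = [(j0, i)]
  | n + 1, j0, i, ws => CT n j0 (i + 1) ws ∨ ∃ ws', ws = (j0, i) :: ws' ∧ CT n (j0 + i + 1) 0 ws'

theorem CT_single (n j0 i : ℕ) : CT n j0 i [(j0, i + n)] := by
  induction n generalizing i with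
  | zero => rfl
  | succ n ih =>
    left
    rw [show i + (n + 1) = i + 1 + n by ring]
    exact ih _

theorem CT_len (n j0 i : ℕ) (ws : List (ℕ × ℕ)) (h : CT n j0 i ws) : 1 ≤ ws.length := by
  induction n generalizing j0 i ws with
  | zero =>
    have h' : ws = [(j0, i)] := h
    rw [h']
    simp
  | succ n ih =>
    rcases h with h | ⟨ws', rfl, _⟩
    · exact ih _ _ _ h
    · simp

theorem CT_sum (d n j0 i : ℕ) (ws : List (ℕ × ℕ)) (h : CT n j0 i ws) :
    (ws.map (fun p => d * p.2 + 1)).sum + d * ws.length = d * (i + n + 1) + ws.length := by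
  induction n generalizing j0 i ws with
  | zero =>
    have h' : ws = [(j0, i)] := h
    rw [h']
    simp
    ring
  | succ n ih =>
    rcases h with h | ⟨ws', rfl, h⟩
    · rw [ih _ _ _ h]
      ring
    · have := ih _ _ _ h
      simp only [List.map_cons, List.sum_cons, List.length_cons]
      nlinarith [this]

/-- Number of sparse windows. -/
def cnt (d : ℕ) (ws : List (ℕ × ℕ)) : ℕ :=
  ws.countP (fun p => decide (p.2 = 0 ∧ (d * p.1) % 3 = 1))

theorem CT_cnt (d : ℕ) (hd : d = 1 ∨ d = 2) (n j0 i : ℕ) (ws : List (ℕ × ℕ)) (h : CT n j0 i ws) :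
    2 * cnt d ws + (if 0 < i ∨ (d * j0) % 3 ≠ 1 then 1 else 0) +
      (if (d * (j0 + i + n)) % 3 ≠ 1 then 1 else 0) ≤ ws.length + 1 := by
  induction n generalizing j0 i ws with
  | zero =>
    have h' : ws = [(j0, i)] := h
    rw [h']
    unfold cnt
    simp only [List.countP_cons, List.countP_nil, List.length_cons, List.length_nil]
    by_cases h0 : i = 0
    · subst h0
      by_cases h1 : (d * j0) % 3 = 1 <;> simp [h1]
    · have h2 : 0 < i := Nat.pos_of_ne_zero h0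
      simp only [h0, false_and, decide_false, Bool.false_eq_true, if_false]
      have a1 : (if 0 < i ∨ (d * j0) % 3 ≠ 1 then 1 else 0) ≤ 1 := by split_ifs <;> simp
      have a2 : (if (d * (j0 + i + 0)) % 3 ≠ 1 then 1 else 0) ≤ 1 := by split_ifs <;> simp
      omega
  | succ n ih =>
    rcases h with h | ⟨ws', rfl, h⟩
    · have h1 := ih _ _ _ h
      rw [show j0 + (i + 1) + n = j0 + i + (n + 1) by ring] at h1
      rw [if_pos (Or.inl (Nat.succ_pos i))] at h1
      have h2 : (if 0 < i ∨ (d * j0) % 3 ≠ 1 then 1 else 0) ≤ 1 := by split_ifs <;> simp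
      omega
    · have h1 := ih _ _ _ h
      rw [show j0 + i + 1 + 0 + n = j0 + i + (n + 1) by ring] at h1
      have h3 : cnt d ((j0, i) :: ws') = cnt d ws' + if i = 0 ∧ (d * j0) % 3 = 1 then 1 else 0 := by
        unfold cnt
        rw [List.countP_cons]
        simp
      rw [h3, List.length_cons]
      by_cases h4 : i = 0 ∧ (d * j0) % 3 = 1
      · rw [if_pos h4]
        obtain ⟨rfl, h5⟩ := h4
        have h6 : (d * (j0 + 0 + 1)) % 3 ≠ 1 := by
          rcases hd with rfl | rfl <;> omega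
        rw [if_pos (Or.inr h6)] at h1
        rw [if_neg (by simp [h5])]
        omega
      · rw [if_neg h4]
        have h2 : (if 0 < i ∨ (d * j0) % 3 ≠ 1 then 1 else 0) ≤ 1 := by split_ifs <;> simp
        omega

/-- Sum over compositions in terms of a bound for the products. -/
theorem WTS_CT (g : ℕ → ℕ → ℝ) (H E0 θ : ℝ) (hg : ∀ j i, 0 ≤ g j i) (hH : 0 ≤ H)
    (n j0 i p : ℕ) (Γ : ℝ) (hG : 0 ≤ Γ)
    (h : ∀ ws R, CT n j0 i ws → ws.length = R + 1 → 1 ≤ R →
      Γ * (ws.map (fun w => g w.1 w.2)).prod ≤ E0 * θ ^ (p + R)) :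
    Γ * H ^ p * WTS g H n j0 i ≤ E0 * (H * θ) ^ p * ((1 + H * θ) ^ n - 1) := by
  induction n generalizing j0 i p Γ with
  | zero =>
    change Γ * H ^ p * 0 ≤ _
    simp
  | succ n ih =>
    have h1 := ih j0 (i + 1) p Γ hG (fun ws R hw hl hR => h ws R (Or.inl hw) hl hR)
    have h2 := ih (j0 + i + 1) 0 (p + 1) (Γ * g j0 i) (mul_nonneg hG (hg _ _))
      (fun ws R hw hl hR => by
        have h3 := h ((j0, i) :: ws) (R + 1) (Or.inr ⟨ws, rfl, hw⟩)
          (by rw [List.length_cons, hl]) (by omega)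
        rw [List.map_cons, List.prod_cons, ← mul_assoc] at h3
        rw [show p + 1 + R = p + (R + 1) by ring]
        exact h3)
    have h4 := h [(j0, i), (j0 + i + 1, n)] 1 (Or.inr ⟨_, rfl, by
      have := CT_single n (j0 + i + 1) 0
      rwa [zero_add] at this⟩) rfl le_rfl
    have h5 : Γ * (g j0 i * g (j0 + i + 1) n) ≤ E0 * θ ^ (p + 1) := by
      simpa using h4
    have h6 : Γ * (g j0 i * g (j0 + i + 1) n) * H ^ (p + 1) ≤ E0 * θ ^ (p + 1) * H ^ (p + 1) :=
      mul_le_mul_of_nonneg_right h5 (pow_nonneg hH _)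
    change Γ * H ^ p * (g j0 i * H * (g (j0 + i + 1) n + WTS g H n (j0 + i + 1) 0) +
      WTS g H n j0 (i + 1)) ≤ _
    have e1 : Γ * H ^ p * (g j0 i * H * (g (j0 + i + 1) n + WTS g H n (j0 + i + 1) 0) +
      WTS g H n j0 (i + 1)) = Γ * (g j0 i * g (j0 + i + 1) n) * H ^ (p + 1) +
        Γ * g j0 i * H ^ (p + 1) * WTS g H n (j0 + i + 1) 0 + Γ * H ^ p * WTS g H n j0 (i + 1) := by
      ring
    have e2 : E0 * (H * θ) ^ p * ((1 + H * θ) ^ (n + 1) - 1) =
        E0 * θ ^ (p + 1) * H ^ (p + 1) + E0 * (H * θ) ^ (p + 1) * ((1 + H * θ) ^ n - 1) +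
          E0 * (H * θ) ^ p * ((1 + H * θ) ^ n - 1) := by
      rw [mul_pow, mul_pow]
      ring
    rw [e1, e2]
    linarith

theorem WTS_CT0 (g : ℕ → ℕ → ℝ) (H E0 θ : ℝ) (hg : ∀ j i, 0 ≤ g j i) (hH : 0 ≤ H)
    (n j0 i : ℕ)
    (h : ∀ ws R, CT n j0 i ws → ws.length = R + 1 → 1 ≤ R →
      (ws.map (fun w => g w.1 w.2)).prod ≤ E0 * θ ^ R) :
    WTS g H n j0 i ≤ E0 * ((1 + H * θ) ^ n - 1) := by
  have h1 := WTS_CT g H E0 θ hg hH n j0 i 0 1 zero_le_one (fun ws R hw hl hR => by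
    rw [one_mul, zero_add]
    exact h ws R hw hl hR)
  simpa using h1

theorem pow_lin (ε : ℝ) (n : ℕ) (h0 : 0 ≤ ε) (h1 : n * ε ≤ 1) :
    (1 + ε) ^ n - 1 ≤ 2 * (n * ε) := by
  have h2 : (1 + ε) ^ n ≤ Real.exp (n * ε) := by
    have h3 : 1 + ε ≤ Real.exp ε := by
      have := Real.add_one_le_exp ε
      linarith
    calc (1 + ε) ^ n ≤ Real.exp ε ^ n := pow_le_pow_left₀ (by linarith) h3 n
      _ = Real.exp (n * ε) := by rw [← Real.exp_nat_mul]
  have h4 : 0 ≤ n * ε := by positivity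
  have h5 := Real.abs_exp_sub_one_sub_id_le (x := n * ε) (by rw [abs_of_nonneg h4]; exact h1)
  have h6 := (abs_le.1 h5).2
  nlinarith

end Pool.Agent.Lib.MP_688fd0_co.TF.H20
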